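import Pool.Agent.Q103.KO.Stm1
import Pool.Agent.W601.PH.Circ

/-!
(E2) A Landau theorem.
-/

set_option autoImplicit false

namespace Pool.Agent.Q209.KO

open Filter Metric Real Set Topology Pool.Agent.H159R3.NV Pool.Agent.W602.NC
open Pool.Agent.TH152.HY (Calm)

variable {N : ℕ}

/-- from the pointwise bound to the mean -/
theorem star {A : ℕ} {g : Fin (N + 1) → ℂ → ℂ} (hg : ∀ i, Differentiable ℂ (g i)) {q : ℂ → ℂ}
    (hq : Differentiable ℂ q) (hq0 : q 0 ≠ 0) {C2 s ε : ℝ} (hs : 0 < s) (hε : 0 < ε)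
    (hne : ∀ z, ‖z‖ = s → ∀ i, g i z ≠ 0)
    (hpt : ∀ z, ‖z‖ = s → ‖q z‖ * sup g z ≤ Real.exp C2 * (1 / ε) ^ A) :
    Real.log ‖q 0‖ + tau g s ≤ C2 + A * Real.log (1 / ε) := by
  have h1 := jensen_entire hs hq hq0
  have hGint : CircleIntegrable (fun z => Real.log (sup g z)) 0 s :=
    tau_int hg hs fun z hz => ⟨0, hne z hz 0⟩
  have e1 : (C2 + A * Real.log (1 / ε)) - tau g s =
      Real.circleAverage (fun z => (C2 + A * Real.log (1 / ε)) - Real.log (sup g z)) 0 s := by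
    rw [Real.circleAverage_fun_sub (circleIntegrable_const _ _ _) hGint, Real.circleAverage_const]
    rfl
  have h2 : L q s ≤ (C2 + A * Real.log (1 / ε)) - tau g s := by
    rw [e1]
    apply avg_le_cod (ci_log (mero_of_diff hq) s)
      ((circleIntegrable_const _ _ _).sub hGint) hs.ne'
    filter_upwards [ne_cod hq hq0 s, self_mem_codiscreteWithin _] with z hz hzs
    have hz' := sph_norm hs hzs
    have h3 := hpt z hz'
    have hsp : 0 < sup g z := (norm_pos_iff.mpr (hne z hz' 0)).trans_le (le_sup g z 0)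
    have hqp : 0 < ‖q z‖ := norm_pos_iff.mpr hz
    have h4 := Real.log_le_log (mul_pos hqp hsp) h3
    rw [Real.log_mul hqp.ne' hsp.ne', Real.log_mul (Real.exp_pos _).ne' (by positivity),
      Real.log_exp, Real.log_pow] at h4
    change Real.log ‖q z‖ ≤ (C2 + A * Real.log (1 / ε)) - Real.log (sup g z)
    linarith
  linarith

theorem log_near {h : ℂ} (hh : ‖h - 1‖ ≤ 1 / 10) :
    9 / 10 ≤ ‖h‖ ∧ ‖h‖ ≤ 11 / 10 ∧ |Real.log ‖h‖| ≤ 1 := by
  have h1 : 9 / 10 ≤ ‖h‖ := by
    have h2 : ‖(1 : ℂ)‖ - ‖h - 1‖ ≤ ‖h‖ := by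
      have h3 := norm_sub_norm_le (1 : ℂ) (1 - h)
      rw [sub_sub_cancel, norm_sub_rev 1 h] at h3
      exact h3
    rw [norm_one] at h2
    linarith
  have h4 : ‖h‖ ≤ 11 / 10 := by
    have h5 : ‖h‖ ≤ ‖h - 1‖ + ‖(1 : ℂ)‖ := by
      have h6 := norm_add_le (h - 1) 1
      rwa [sub_add_cancel] at h6
    rw [norm_one] at h5
    linarith
  refine ⟨h1, h4, ?_⟩
  have hpos : 0 < ‖h‖ := by linarith
  rw [abs_le]
  constructor
  · have h5 := Real.one_sub_inv_le_log_of_pos hpos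
    have h6 : ‖h‖⁻¹ ≤ 2 := by
      rw [inv_le_comm₀ hpos (by norm_num)]
      linarith
    linarith
  · have h5 := Real.log_le_sub_one_of_pos hpos
    linarith

/-- **A Landau theorem.** -/
theorem lan (hloz : Pool.Agent.Q103.KO.S_loz) : Pool.Agent.Q103.KO.S_lan := by
  intro N A Λ C₁
  obtain ⟨Λ', hΛ'⟩ : ∃ Λ' : ℝ, Λ' = |Λ| + 1 := ⟨_, rfl⟩
  obtain ⟨C, hC⟩ : ∃ C : ℝ, C = max C₁ 1 := ⟨_, rfl⟩
  have hC1 : 1 ≤ C := by rw [hC]; exact le_max_right _ _
  have hCC : C₁ ≤ C := by rw [hC]; exact le_max_left _ _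
  have hΛ0 : 0 ≤ Λ' := by rw [hΛ']; positivity
  obtain ⟨C2, hC2⟩ : ∃ C2 : ℝ, C2 = Real.log (2 * C) + 2 * A := ⟨_, rfl⟩
  have hC20 : 0 ≤ C2 := by
    rw [hC2]
    have := Real.log_nonneg (show (1 : ℝ) ≤ 2 * C by linarith)
    positivity
  obtain ⟨B, hB⟩ : ∃ B : ℝ, B = (N + 1) * (C2 + 1 + Λ' + A * Real.log 2) := ⟨_, rfl⟩
  have hlog2 : 0 ≤ Real.log 2 := Real.log_nonneg (by norm_num)
  have hB0 : 0 ≤ B := by rw [hB]; positivity
  obtain ⟨S2, hS2⟩ : ∃ S2 : ℝ, S2 = 1 + 2 * B + 2 * ((N + 1) * A) * (7 + 3 * Real.log (2 + 3)) +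
    576 * ((N + 1) * A) ^ 2 := ⟨_, rfl⟩
  refine ⟨Real.exp (C2 + 1 + Λ' + A * (Real.log 2 +
    Real.log (1000 * (1 + 4 * (1 / 4)) ^ 3 * (S2 + 1) ^ 2 / (1 / 4) ^ 4))) + 1, ?_⟩
  intro U Q hU hQ hU0 hpt
  have hexp0 := Real.exp_pos (C2 + 1 + Λ' + A * (Real.log 2 +
    Real.log (1000 * (1 + 4 * (1 / 4)) ^ 3 * (S2 + 1) ^ 2 / (1 / 4) ^ 4)))
  by_cases hQ1 : ‖Q 0‖ ≤ 1
  · linarith
  push Not at hQ1
  have hQ0 : Q 0 ≠ 0 := by
    intro h
    rw [h, norm_zero] at hQ1
    linarith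
  -- the entire functions
  have hex := fun i => hloz (U i) (hU i) (hU0 i).1 (1 / 10) (by norm_num)
  choose g h hg hgh using hex
  obtain ⟨q, k, hq, hqk⟩ := hloz Q hQ hQ0 (1 / 10) (by norm_num)
  have h06 : (0 : ℂ) ∈ closedBall (0 : ℂ) 6 := mem_closedBall_self (by norm_num)
  have hg0 : ∀ i, g i 0 ≠ 0 := by
    intro i h0
    apply (hU0 i).1
    rw [(hgh i 0 h06).1, h0, mul_zero]
  have hq0 : q 0 ≠ 0 := by
    intro h0
    apply hQ0
    rw [(hqk 0 h06).1, h0, mul_zero]
  have hBase : Base g Λ' := by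
    refine ⟨hg, hg0, hΛ0, fun j => ?_⟩
    obtain ⟨e1, e2⟩ := hgh j 0 h06
    obtain ⟨e3, -, e4⟩ := log_near e2
    have e5 : Real.log ‖U j 0‖ = Real.log ‖h j 0‖ + Real.log ‖g j 0‖ := by
      rw [e1, norm_mul, Real.log_mul (by linarith) (norm_ne_zero_iff.2 (hg0 j))]
    have e6 : Real.log ‖g j 0‖ = Real.log ‖U j 0‖ - Real.log ‖h j 0‖ := by linarith
    rw [e6, hΛ']
    refine (abs_sub _ _).trans ?_
    have e7 := (hU0 j).2
    have e8 := le_abs_self Λ
    linarith
  have hlogq : Real.log ‖Q 0‖ - 1 ≤ Real.log ‖q 0‖ := by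
    obtain ⟨e1, e2⟩ := hqk 0 h06
    obtain ⟨e3, -, e4⟩ := log_near e2
    have e5 : Real.log ‖Q 0‖ = Real.log ‖k 0‖ + Real.log ‖q 0‖ := by
      rw [e1, norm_mul, Real.log_mul (by linarith) (norm_ne_zero_iff.2 hq0)]
    have e6 := (abs_le.1 e4).2
    linarith
  have hQlog : 0 ≤ Real.log ‖Q 0‖ := Real.log_nonneg hQ1.le
  -- the main inequality on good circles
  have hstar : ∀ s ε : ℝ, 0 < s → s ≤ 5 → 0 < ε → ε ≤ 1 →
      (∀ z, ‖z‖ = s → ∀ j, ∀ w ∈ closedBall z ε, g j w ≠ 0) →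
      (∀ z, ‖z‖ = s → ∀ i j, ∀ w ∈ closedBall z ε,
        ‖g j w / g i w‖ ≤ Real.exp 1 * ‖g j z / g i z‖) →
      Real.log ‖Q 0‖ + tau g s ≤ C2 + 1 + A * Real.log (1 / ε) := by
    intro s ε hs hs5 hε hε1 hne0 hosc
    have hne : ∀ z, ‖z‖ = s → ∀ i, g i z ≠ 0 :=
      fun z hz i => hne0 z hz i z (mem_closedBall_self hε.le)
    have hst := star (A := A) hg hq hq0 (C2 := C2) hs hε hne (by
      intro z hz
      have hsub6 : closedBall z ε ⊆ closedBall (0 : ℂ) 6 := by
        intro w hw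
        rw [mem_closedBall, dist_zero_right]
        rw [mem_closedBall, dist_eq_norm] at hw
        have e1 := norm_add_le (w - z) z
        rw [sub_add_cancel] at e1
        linarith
      have hsub : closedBall z ε ⊆ ball (0 : ℂ) 7 :=
        hsub6.trans (closedBall_subset_ball (by norm_num))
      have hz6 : z ∈ closedBall (0 : ℂ) 6 := hsub6 (mem_closedBall_self hε.le)
      have hcalm : Calm U z ε (Real.exp 2) := by
        constructor
        · intro i w hw
          obtain ⟨e1, e2⟩ := hgh i w (hsub6 hw)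
          obtain ⟨e3, -, -⟩ := log_near e2
          rw [e1]
          refine mul_ne_zero ?_ (hne0 z hz i w hw)
          intro e4
          rw [e4, norm_zero] at e3
          norm_num at e3
        · intro i j w hw
          have h1 := hosc z hz i j w hw
          obtain ⟨a1, a2⟩ := hgh i w (hsub6 hw)
          obtain ⟨a3, a4, -⟩ := log_near a2
          obtain ⟨b1, b2⟩ := hgh j w (hsub6 hw)
          obtain ⟨b3, b4, -⟩ := log_near b2
          obtain ⟨c1, c2⟩ := hgh i z hz6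
          obtain ⟨c3, c4, -⟩ := log_near c2
          obtain ⟨d1, d2⟩ := hgh j z hz6
          obtain ⟨d3, d4, -⟩ := log_near d2
          have gi := norm_pos_iff.2 (hne0 z hz i w hw)
          have gj := norm_pos_iff.2 (hne0 z hz j w hw)
          have gi' := norm_pos_iff.2 (hne z hz i)
          have gj' := norm_pos_iff.2 (hne z hz j)
          have hiw : 0 < ‖h i w‖ := by linarith
          have hjw : 0 < ‖h j w‖ := by linarith
          have hiz : 0 < ‖h i z‖ := by linarith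
          have hjz : 0 < ‖h j z‖ := by linarith
          have r1 : ‖U j w / U i w‖ = (‖h j w‖ / ‖h i w‖) * ‖g j w / g i w‖ := by
            rw [a1, b1, norm_div, norm_mul, norm_mul, norm_div]
            field_simp
          have r2 : ‖g j z / g i z‖ = (‖h i z‖ / ‖h j z‖) * ‖U j z / U i z‖ := by
            rw [c1, d1, norm_div, norm_div, norm_mul, norm_mul]
            field_simp
          have r3 : ‖h j w‖ / ‖h i w‖ ≤ 11 / 9 := by
            rw [div_le_iff₀ hiw]
            linarith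
          have r4 : ‖h i z‖ / ‖h j z‖ ≤ 11 / 9 := by
            rw [div_le_iff₀ hjz]
            linarith
          have r5 : (11 / 9 : ℝ) * (11 / 9) ≤ Real.exp 1 := by
            have := Real.add_one_le_exp (1 : ℝ)
            linarith
          rw [r1]
          calc (‖h j w‖ / ‖h i w‖) * ‖g j w / g i w‖ ≤
                (11 / 9) * (Real.exp 1 * ((11 / 9) * ‖U j z / U i z‖)) := by
                refine mul_le_mul r3 (h1.trans ?_) (norm_nonneg _) (by norm_num)
                refine mul_le_mul_of_nonneg_left ?_ (Real.exp_pos _).le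
                rw [r2]
                exact mul_le_mul_of_nonneg_right r4 (norm_nonneg _)
            _ = ((11 / 9) * (11 / 9)) * (Real.exp 1 * ‖U j z / U i z‖) := by ring
            _ ≤ Real.exp 1 * (Real.exp 1 * ‖U j z / U i z‖) :=
                mul_le_mul_of_nonneg_right r5 (by positivity)
            _ = Real.exp 2 * ‖U j z / U i z‖ := by
                rw [← mul_assoc, ← Real.exp_add]
                norm_num
      have h2 := hpt z ε (Real.exp 2) hε hε1 (Real.one_le_exp (by norm_num)) hsub hcalm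
      obtain ⟨a1, a2⟩ := hqk z hz6
      obtain ⟨a3, -, -⟩ := log_near a2
      have h3 : 9 / 10 * ‖q z‖ ≤ ‖Q z‖ := by
        rw [a1, norm_mul]
        exact mul_le_mul_of_nonneg_right a3 (norm_nonneg _)
      have h4 : 9 / 10 * sup g z ≤ sup U z := by
        obtain ⟨j, hj⟩ := sup_attained g z
        obtain ⟨b1, b2⟩ := hgh j z hz6
        obtain ⟨b3, -, -⟩ := log_near b2
        rw [hj]
        refine le_trans ?_ (le_sup U z j)
        rw [b1, norm_mul]
        exact mul_le_mul_of_nonneg_right b3 (norm_nonneg _)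
      have hsg : 0 ≤ sup g z := (norm_nonneg _).trans (le_sup g z 0)
      have h5 : (9 / 10 * ‖q z‖) * (9 / 10 * sup g z) ≤ C * (Real.exp 2 / ε) ^ A := by
        refine (mul_le_mul h3 h4 (by positivity) (norm_nonneg _)).trans (h2.trans ?_)
        exact mul_le_mul_of_nonneg_right hCC (by positivity)
      have h6 : Real.exp C2 * (1 / ε) ^ A = 2 * (C * (Real.exp 2 / ε) ^ A) := by
        rw [hC2, Real.exp_add, Real.exp_log (by linarith)]
        have : Real.exp (2 * (A : ℝ)) = Real.exp 2 ^ A := by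
          rw [← Real.exp_nat_mul]
          congr 1
          ring
        rw [this, div_pow, div_pow, one_pow]
        ring
      rw [h6]
      nlinarith [mul_nonneg (norm_nonneg (q z)) hsg])
    linarith
  -- growth
  have hNA : (0 : ℝ) ≤ (N + 1) * A := by positivity
  have hgrow := growth (SS g Λ') B ((N + 1) * A) 2 (SS g Λ' (2 + 3)) hB0 hNA (by norm_num)
    (fun r h1 h2 => hBase.SS_mono (by linarith) h2) (by
      intro r δ h1 h2 h3 h4r
      obtain ⟨s, ε, hrs, hsr, hε, hε1, hεX, h0, hb⟩ := hBase.good (r := r) (δ := δ) (by linarith) h2 h3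
      have hs : 0 < s := by linarith
      have hne : ∀ z, ‖z‖ = s → ∀ i, g i z ≠ 0 :=
        fun z hz i => h0 z hz i z (mem_closedBall_self hε.le)
      have h4 := hstar s ε hs (by linarith) hε hε1 h0 hb
      set X : ℝ := 1000 * (r + 4 * δ) ^ 3 * (SS g Λ' (r + 4 * δ) + 1) ^ 2 / δ ^ 4 with hX
      have hSnn := hBase.SS_nonneg (R := r + 4 * δ) (by linarith)
      have hr4 : 0 < r + 4 * δ := by linarith
      have hXpos : 0 < X := by positivity
      have h5 : Real.log (1 / ε) ≤ Real.log 2 + Real.log X := by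
        rw [← Real.log_mul (by norm_num) hXpos.ne']
        exact Real.log_le_log (by positivity) hεX
      have h6 : SS g Λ' s ≤ (N + 1) * (tau g s + Λ') := by
        unfold SS
        calc ∑ j, (T2 (g 0) (g j) s + Λ') ≤ ∑ _j : Fin (N + 1), (tau g s + Λ') :=
              Finset.sum_le_sum fun j _ => by linarith [T2_le_tau hg hs hne j]
          _ = (N + 1) * (tau g s + Λ') := by simp; ring
      have h7 := hBase.SS_mono (by linarith : 0 < r) hrs
      have h8 : (A : ℝ) * Real.log (1 / ε) ≤ A * (Real.log 2 + Real.log X) :=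
        mul_le_mul_of_nonneg_left h5 (Nat.cast_nonneg A)
      have h9 : (N + 1 : ℝ) * (tau g s + Λ') ≤
          (N + 1) * (C2 + 1 + Λ' + A * (Real.log 2 + Real.log X)) :=
        mul_le_mul_of_nonneg_left (by linarith) (by positivity)
      calc SS g Λ' r ≤ (N + 1) * (C2 + 1 + Λ' + A * (Real.log 2 + Real.log X)) := by linarith
        _ = _ := by rw [hB]; ring)
    (fun r h1 => hBase.SS_nonneg (by linarith))
  rw [← hS2] at hgrow
  -- the final step
  obtain ⟨s, ε, hrs, hsr, hε, hε1, hεX, h0, hb⟩ := hBase.good (r := 1) (δ := 1 / 4) le_rfl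
    (by norm_num) (by norm_num)
  have hs : 0 < s := by linarith
  have hne : ∀ z, ‖z‖ = s → ∀ i, g i z ≠ 0 :=
    fun z hz i => h0 z hz i z (mem_closedBall_self hε.le)
  have h4 := hstar s ε hs (by linarith) hε hε1 h0 hb
  have hSnn := hBase.SS_nonneg (R := 1 + 4 * (1 / 4)) (by norm_num)
  have hSle : SS g Λ' (1 + 4 * (1 / 4)) ≤ S2 := by
    have : (1 : ℝ) + 4 * (1 / 4) = 2 := by norm_num
    rw [this]
    exact hgrow
  have h5 : Real.log (1 / ε) ≤ Real.log 2 +
      Real.log (1000 * (1 + 4 * (1 / 4)) ^ 3 * (S2 + 1) ^ 2 / (1 / 4) ^ 4) := by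
    have hS20 : 0 ≤ S2 := hSnn.trans hSle
    rw [← Real.log_mul (by norm_num) (by positivity)]
    refine Real.log_le_log (by positivity) (hεX.trans ?_)
    gcongr
  have h6 := hBase.L_ge 0 hs
  have h7 := T2_ge_L0 (g 0) (g 0) s
  have h8 := T2_le_tau hg hs hne 0
  have h9 : (A : ℝ) * Real.log (1 / ε) ≤ A * (Real.log 2 +
      Real.log (1000 * (1 + 4 * (1 / 4)) ^ 3 * (S2 + 1) ^ 2 / (1 / 4) ^ 4)) :=
    mul_le_mul_of_nonneg_left h5 (Nat.cast_nonneg A)
  have h10 : Real.log ‖Q 0‖ ≤ C2 + 1 + Λ' + A * (Real.log 2 +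
      Real.log (1000 * (1 + 4 * (1 / 4)) ^ 3 * (S2 + 1) ^ 2 / (1 / 4) ^ 4)) := by linarith
  have h11 : ‖Q 0‖ = Real.exp (Real.log ‖Q 0‖) := (Real.exp_log (by linarith)).symm
  rw [h11]
  have h12 := Real.exp_le_exp.2 h10
  linarith

end Pool.Agent.Q209.KO
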