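import Pool.Agent.Q103.KO.Stm1

/-!
(E1) Approximation by entire functions with the same zeros.
-/

set_option autoImplicit false

namespace Pool.Agent.Q209.KO

open Filter Metric Set Topology

/-- factoring out the zeros in the closed disc of radius `13/2` -/
theorem factor (f : ℂ → ℂ) (hf : DifferentiableOn ℂ f (ball 0 7)) (h0 : f 0 ≠ 0) :
    ∃ P k : ℂ → ℂ, Differentiable ℂ P ∧ DifferentiableOn ℂ k (ball 0 (13 / 2)) ∧
      (∀ z ∈ ball (0 : ℂ) (13 / 2), k z ≠ 0) ∧ ∀ z ∈ ball (0 : ℂ) (13 / 2), f z = P z * k z := by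
  obtain ⟨U, hU⟩ : ∃ U : Set ℂ, U = closedBall (0 : ℂ) (13 / 2) := ⟨_, rfl⟩
  have hUc : IsCompact U := by rw [hU]; exact isCompact_closedBall _ _
  have hUsub : U ⊆ ball (0 : ℂ) 7 := by
    rw [hU]
    exact closedBall_subset_ball (by norm_num)
  have hfan : AnalyticOnNhd ℂ f (ball 0 7) := hf.analyticOnNhd isOpen_ball
  have hfU : AnalyticOnNhd ℂ f U := hfan.mono hUsub
  have hord : ∀ u : U, meromorphicOrderAt f u ≠ ⊤ := by
    rintro ⟨u, hu⟩ htop
    have h1 : ∀ᶠ z in 𝓝[≠] u, f z = 0 := meromorphicOrderAt_eq_top_iff.1 htop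
    have h2 := hfan.eqOn_zero_of_preconnected_of_frequently_eq_zero
      (convex_ball (0 : ℂ) 7).isPreconnected (hUsub hu) h1.frequently
    exact h0 (h2 (mem_ball_self (by norm_num)))
  have hfin : (MeromorphicOn.divisor f U).support.Finite :=
    (MeromorphicOn.divisor f U).finiteSupport hUc
  obtain ⟨g, hg1, hg2, hg3⟩ := hfU.meromorphicOn.extract_zeros_poles hord hfin
  obtain ⟨P, hP⟩ : ∃ P : ℂ → ℂ, P = ∏ᶠ u, (· - u) ^ (MeromorphicOn.divisor f U u) := ⟨_, rfl⟩
  rw [← hP] at hg3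
  have hPan : ∀ z, AnalyticAt ℂ P z := by
    intro z
    rw [hP]
    exact Function.FactorizedRational.analyticAt (MeromorphicOn.AnalyticOnNhd.divisor_nonneg hfU z)
  have hPd : Differentiable ℂ P := fun z => (hPan z).differentiableAt
  refine ⟨P, g, hPd, ?_, ?_, ?_⟩
  · intro z hz
    exact (hg1 z (by rw [hU]; exact ball_subset_closedBall hz)).differentiableAt.differentiableWithinAt
  · intro z hz
    exact hg2 ⟨z, by rw [hU]; exact ball_subset_closedBall hz⟩
  · intro z hz
    have hzU : z ∈ U := by rw [hU]; exact ball_subset_closedBall hz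
    have h1 : {w | f w = (P • g) w} ∪ Uᶜ ∈ 𝓝[≠] z :=
      mem_codiscreteWithin_iff_forall_mem_nhdsNE.1 hg3 z hzU
    have h2 : ∀ᶠ w in 𝓝[≠] z, f w = P w * g w := by
      have h3 : ∀ᶠ w in 𝓝[≠] z, w ∈ ball (0 : ℂ) (13 / 2) :=
        nhdsWithin_le_nhds (isOpen_ball.mem_nhds hz)
      filter_upwards [h1, h3] with w h4 h5
      rcases h4 with h4 | h4
      · exact h4
      · exact absurd (by rw [hU]; exact ball_subset_closedBall h5) h4
    have h3 : Tendsto f (𝓝[≠] z) (𝓝 (f z)) :=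
      ((hfU z hzU).continuousAt.tendsto).mono_left nhdsWithin_le_nhds
    have h4 : Tendsto (fun w => P w * g w) (𝓝[≠] z) (𝓝 (P z * g z)) :=
      (((hPan z).continuousAt.mul (hg1 z hzU).continuousAt).tendsto).mono_left nhdsWithin_le_nhds
    exact tendsto_nhds_unique (h3.congr' h2) h4

/-- holomorphic logarithm -/
theorem exists_log (k : ℂ → ℂ) {R : ℝ} (hR : 0 < R) (hk : DifferentiableOn ℂ k (ball 0 R))
    (hne : ∀ z ∈ ball (0 : ℂ) R, k z ≠ 0) :
    ∃ κ : ℂ → ℂ, DifferentiableOn ℂ κ (ball 0 R) ∧ ∀ z ∈ ball (0 : ℂ) R, k z = Complex.exp (κ z) := by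
  have h1 : DifferentiableOn ℂ (fun z => deriv k z / k z) (ball 0 R) :=
    (hk.deriv isOpen_ball).div hk hne
  obtain ⟨F, hF⟩ := h1.isExactOn_ball
  have h00 : (0 : ℂ) ∈ ball (0 : ℂ) R := mem_ball_self hR
  obtain ⟨c, hc⟩ : ∃ c, Complex.exp c = k 0 := ⟨Complex.log (k 0), Complex.exp_log (hne 0 h00)⟩
  refine ⟨fun z => F z - F 0 + c, ?_, ?_⟩
  · intro z hz
    exact (((hF z hz).differentiableAt.sub_const _).add_const _).differentiableWithinAt
  · obtain ⟨G, hG⟩ : ∃ G : ℂ → ℂ, G = fun z => k z * Complex.exp (-(F z - F 0 + c)) := ⟨_, rfl⟩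
    have hGd : ∀ z ∈ ball (0 : ℂ) R, HasDerivAt G 0 z := by
      intro z hz
      have e1 : HasDerivAt k (deriv k z) z :=
        (hk.differentiableAt (isOpen_ball.mem_nhds hz)).hasDerivAt
      have e2 : HasDerivAt (fun z => Complex.exp (-(F z - F 0 + c)))
          (Complex.exp (-(F z - F 0 + c)) * -(deriv k z / k z)) z :=
        (((hF z hz).sub_const _).add_const _).neg.cexp
      have e3 := e1.mul e2
      have e4 : deriv k z * Complex.exp (-(F z - F 0 + c)) +
          k z * (Complex.exp (-(F z - F 0 + c)) * -(deriv k z / k z)) = 0 := by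
        have e5 : k z * (deriv k z / k z) = deriv k z := mul_div_cancel₀ _ (hne z hz)
        linear_combination (-Complex.exp (-(F z - F 0 + c))) * e5
      rw [e4] at e3
      rw [hG]
      exact e3
    have hconst : ∀ z ∈ ball (0 : ℂ) R, G z = G 0 := by
      intro z hz
      exact isOpen_ball.is_const_of_deriv_eq_zero (convex_ball (0 : ℂ) R).isPreconnected
        (fun w hw => (hGd w hw).differentiableAt.differentiableWithinAt)
        (fun w hw => (hGd w hw).deriv) hz h00
    intro z hz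
    have h2 := hconst z hz
    rw [hG] at h2
    simp only [sub_self, zero_add] at h2
    rw [← hc, ← Complex.exp_add, add_neg_cancel, Complex.exp_zero] at h2
    have h3 : k z * Complex.exp (-(F z - F 0 + c)) * Complex.exp (F z - F 0 + c) =
        Complex.exp (F z - F 0 + c) := by rw [h2, one_mul]
    rwa [mul_assoc, ← Complex.exp_add, neg_add_cancel, Complex.exp_zero, mul_one] at h3

theorem loz : Pool.Agent.Q103.KO.S_loz := by
  intro f hf h0 η hη
  obtain ⟨P, k, hP, hk, hkne, hfac⟩ := factor f hf h0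
  obtain ⟨κ, hκ, hκe⟩ := exists_log k (by norm_num) hk hkne
  obtain ⟨δ, hδ, hδe⟩ : ∃ δ : ℝ, 0 < δ ∧ ∀ w : ℂ, ‖w‖ < δ → ‖Complex.exp w - 1‖ < η := by
    have h1 : ContinuousAt Complex.exp 0 := Complex.continuous_exp.continuousAt
    obtain ⟨δ, hδ, h2⟩ := Metric.continuousAt_iff.1 h1 η hη
    refine ⟨δ, hδ, fun w hw => ?_⟩
    have h3 := h2 (by rwa [dist_zero_right])
    rwa [Complex.exp_zero, dist_eq_norm] at h3
  -- the Taylor polynomials of `κ`
  obtain ⟨R, hR⟩ : ∃ R : NNReal, (R : ℝ) = 63 / 10 := ⟨⟨63 / 10, by norm_num⟩, rfl⟩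
  have hR0 : 0 < R := by
    have : (0 : ℝ) < R := by rw [hR]; norm_num
    exact_mod_cast this
  have hs := (hκ.mono (show closedBall (0 : ℂ) R ⊆ ball 0 (13 / 2) from
    closedBall_subset_ball (by rw [hR]; norm_num))).hasFPowerSeriesOnBall hR0
  obtain ⟨R', hR'⟩ : ∃ R : NNReal, (R : ℝ) = 61 / 10 := ⟨⟨61 / 10, by norm_num⟩, rfl⟩
  have hun := hs.tendstoUniformlyOn (r' := R') (by
    have : (R' : ℝ) < R := by rw [hR, hR']; norm_num
    exact_mod_cast this)
  rw [Metric.tendstoUniformlyOn_iff] at hun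
  obtain ⟨m, hm⟩ := (hun δ hδ).exists
  obtain ⟨κm, hκm⟩ : ∃ κm : ℂ → ℂ, κm = fun y => (cauchyPowerSeries κ 0 R).partialSum m y := ⟨_, rfl⟩
  have hκmd : Differentiable ℂ κm := by
    rw [hκm]
    unfold FormalMultilinearSeries.partialSum
    refine Differentiable.fun_sum fun i _ => ?_
    have : (fun y : ℂ => (cauchyPowerSeries κ 0 R i) fun _ => y) =
        fun y => y ^ i • (cauchyPowerSeries κ 0 R).coeff i := by
      funext y
      exact FormalMultilinearSeries.apply_eq_pow_smul_coeff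
    rw [this]
    exact (differentiable_id.pow i).smul_const _
  refine ⟨fun z => P z * Complex.exp (κm z), fun z => Complex.exp (κ z - κm z),
    hP.mul hκmd.cexp, fun z hz => ?_⟩
  have hz1 : z ∈ ball (0 : ℂ) (13 / 2) := closedBall_subset_ball (by norm_num) hz
  constructor
  · rw [hfac z hz1, hκe z hz1]
    have : Complex.exp (κ z) = Complex.exp (κ z - κm z) * Complex.exp (κm z) := by
      rw [← Complex.exp_add, sub_add_cancel]
    rw [this]
    ring
  · have h1 := hm z (by
      rw [hR']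
      exact closedBall_subset_ball (by norm_num) hz)
    rw [zero_add, dist_eq_norm] at h1
    rw [hκm]
    exact (hδe _ h1).le

end Pool.Agent.Q209.KO
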