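import Pool.Agent.Q103.KO.Stm2
import Pool.Agent.Q209.GT.Spec

/-!
(F2) Specialization of a map with its points and of the forms.
-/

set_option autoImplicit false

namespace Pool.Agent.Q209.KO

open Polynomial
open Pool.Agent.Q41.SU (Stab)
open Pool.Agent.Q41.GT (crs gfn pprod)
open Pool.Agent.Q103.EC (GG)
open Pool.Agent.TH466.QG (Sp)
open Pool.Agent.Q209.GT (unit_ne Dat dat_finite lift_poly)

/-- the ring of the pairs of elements which specialise to each other -/
def BS {k K E : Type} [Field k] [Field K] [Field E] [Algebra k K] [Algebra k E] (S : Sp k K E) :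
    Subring (K × E) where
  carrier := {p | S.T p.1 p.2}
  mul_mem' h h' := S.mul h h'
  add_mem' h h' := S.add h h'
  one_mem' := S.one
  zero_mem' := S.zero
  neg_mem' h := S.neg h

section

variable {k K E : Type} [Field k] [Field K] [Field E] [Algebra k K] [Algebra k E] (S : Sp k K E)

/-- the first projection -/
def al : BS S →+* K := (RingHom.fst K E).comp (BS S).subtype

/-- the second projection -/
def be : BS S →+* E := (RingHom.snd K E).comp (BS S).subtype

theorem al_inj : Function.Injective (al S) := by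
  rw [injective_iff_map_eq_zero]
  rintro ⟨⟨a, b⟩, h⟩ h0
  change a = 0 at h0
  change S.T a b at h
  have hb : b = 0 := S.eq_zero h h0
  exact Subtype.ext (Prod.ext h0 hb)

theorem al_be (b : BS S) : S.T (al S b) (be S b) := b.2

theorem mem_al {a : K} (h : ∃ t, S.T a t) : a ∈ Set.range (al S) := by
  obtain ⟨t, ht⟩ := h
  exact ⟨⟨(a, t), ht⟩, rfl⟩

end

theorem be_inv {B L E : Type} [CommRing B] [Field L] [Field E] {α : B →+* L} (β : B →+* E)
    (hα : Function.Injective α) {b c : B} {x : L} (hx : x ≠ 0) (hb : α b = x) (hc : α c = x⁻¹) :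
    β b ≠ 0 ∧ β c = (β b)⁻¹ := by
  have h1 : b * c = 1 := hα (by rw [map_mul, hb, hc, mul_inv_cancel₀ hx, map_one])
  have h2 : β b * β c = 1 := by rw [← map_mul, h1, map_one]
  have h3 : β b ≠ 0 := fun h0 => by rw [h0, zero_mul] at h2; exact zero_ne_one h2
  exact ⟨h3, eq_inv_of_mul_eq_one_right h2⟩

open Classical in
theorem spf_ring {B L E : Type} [CommRing B] [Field L] [Field E] (α : B →+* L) (β : B →+* E)
    (hα : Function.Injective α) {p q u v : L[X]} {d E₀ : ℕ} (hd : 1 ≤ d)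
    (hp : p.natDegree ≤ d) (hq : q.natDegree = d) (hc : u * p + v * q = 1) {P : Finset L}
    (hS : Stab p q P) (al : L → L) (hal : ∀ z, al z ≠ 0)
    (hrel : ∀ z ∈ P, al z ^ d = q.eval z ^ E₀ * al (p.eval z / q.eval z))
    (h : ∀ a ∈ Dat p q u v P, a ∈ Set.range α) (h1 : ∀ z ∈ P, al z ∈ Set.range α)
    (h2 : ∀ z ∈ P, (al z)⁻¹ ∈ Set.range α) :
    ∃ (p' q' : E[X]) (s : L → E) (al' : E → E), p'.natDegree ≤ d ∧ q'.natDegree = d ∧
      IsCoprime p' q' ∧ (∀ z ∈ P, ∃ b, α b = z ∧ β b = s z) ∧ Set.InjOn s P ∧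
      Stab p' q' (P.image s) ∧ (∀ c ∈ crs (P.image s), ∃ b, α b ∈ crs P ∧ β b = c) ∧
      (∀ z, al' z ≠ 0) ∧
      (∀ z ∈ P.image s, al' z ^ d = q'.eval z ^ E₀ * al' (p'.eval z / q'.eval z)) ∧
      ∀ z ∈ P, ∀ z' ∈ P, (∃ b, α b = gfn E₀ d al p q z z' ∧
        β b = gfn E₀ d al' p' q' (s z) (s z')) := by
  obtain ⟨p0, hp0⟩ := lift_poly α (p := p) fun c hc => h c (by simp only [Dat, Set.mem_union]; tauto)
  obtain ⟨q0, hq0⟩ := lift_poly α (p := q) fun c hc => h c (by simp only [Dat, Set.mem_union]; tauto)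
  obtain ⟨u0, hu0⟩ := lift_poly α (p := u) fun c hc => h c (by simp only [Dat, Set.mem_union]; tauto)
  obtain ⟨v0, hv0⟩ := lift_poly α (p := v) fun c hc => h c (by simp only [Dat, Set.mem_union]; tauto)
  have hP : ∀ z ∈ P, ∃ b, α b = z := fun z hz => h z (by
    simp only [Dat, Set.mem_union]
    have : z ∈ (↑P : Set L) := hz
    tauto)
  have hP' : ∀ z : L, ∃ b a c, z ∈ P → α b = z ∧ α a = al z ∧ α c = (al z)⁻¹ := by
    intro z
    by_cases hz : z ∈ P
    · obtain ⟨b, hb⟩ := hP z hz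
      obtain ⟨a, ha⟩ := h1 z hz
      obtain ⟨c, hc⟩ := h2 z hz
      exact ⟨b, a, c, fun _ => ⟨hb, ha, hc⟩⟩
    · exact ⟨0, 0, 0, fun h => absurd h hz⟩
  choose s a c hsac using hP'
  have hs : ∀ z ∈ P, α (s z) = z := fun z hz => (hsac z hz).1
  have ha : ∀ z ∈ P, α (a z) = al z := fun z hz => (hsac z hz).2.1
  have hcc : ∀ z ∈ P, α (c z) = (al z)⁻¹ := fun z hz => (hsac z hz).2.2
  have hne : ∀ z ∈ P, ∀ z' ∈ P, z ≠ z' → β (s z) - β (s z') ≠ 0 := by
    intro z hz z' hz' hzz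
    rw [← map_sub]
    have h1 : α (s z - s z') = z - z' := by rw [map_sub, hs z hz, hs z' hz']
    refine unit_ne α β hα (by rw [h1]; exact sub_ne_zero.2 hzz) ?_
    rw [h1]
    exact h _ (Or.inr ⟨(z, z'), ⟨hz, hz'⟩, rfl⟩)
  have hinj : Set.InjOn (fun z => β (s z)) P := by
    intro z hz z' hz' hzz
    by_contra h0
    exact hne z hz z' hz' h0 (sub_eq_zero.2 hzz)
  have hqz : ∀ z ∈ P, β (q0.eval (s z)) ≠ 0 ∧ α (q0.eval (s z)) = q.eval z := by
    intro z hz
    have h1 : α (q0.eval (s z)) = q.eval z := by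
      rw [← hq0, ← Polynomial.eval₂_at_apply, ← Polynomial.eval_map, hs z hz]
    refine ⟨unit_ne α β hα (by rw [h1]; exact (hS z hz).1) ?_, h1⟩
    rw [h1]
    exact h _ (Or.inl (Or.inr ⟨z, hz, rfl⟩))
  have hpz : ∀ z ∈ P, α (p0.eval (s z)) = p.eval z := by
    intro z hz
    rw [← hp0, ← Polynomial.eval₂_at_apply, ← Polynomial.eval_map, hs z hz]
  have hev : ∀ (f : B[X]) (b : B), (f.map β).eval (β b) = β (f.eval b) := by
    intro f b
    rw [Polynomial.eval_map, Polynomial.eval₂_at_apply]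
  have hstep : ∀ z ∈ P, β (p0.eval (s z)) / β (q0.eval (s z)) =
      β (s (p.eval z / q.eval z)) := by
    intro z hz
    rw [div_eq_iff (hqz z hz).1, ← map_mul]
    congr 1
    apply hα
    rw [map_mul, hs _ (hS z hz).2, (hqz z hz).2, hpz z hz, div_mul_cancel₀ _ (hS z hz).1]
  -- the new `al`
  have hex : ∃ al' : E → E, (∀ w, al' w ≠ 0) ∧ ∀ z ∈ P, al' (β (s z)) = β (a z) := by
    refine ⟨fun w => if hw : ∃ z ∈ P, β (s z) = w then β (a hw.choose) else 1, ?_, ?_⟩
    · intro w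
      dsimp only
      split_ifs with hw
      · exact (be_inv β hα (hal _) (ha _ hw.choose_spec.1) (hcc _ hw.choose_spec.1)).1
      · exact one_ne_zero
    · intro z hz
      have hw : ∃ z' ∈ P, β (s z') = β (s z) := ⟨z, hz, rfl⟩
      dsimp only
      rw [dif_pos hw, hinj hw.choose_spec.1 hz hw.choose_spec.2]
  obtain ⟨al', hal', hal2⟩ := hex
  refine ⟨p0.map β, q0.map β, fun z => β (s z), al', ?_, ?_, ?_, fun z hz => ⟨s z, hs z hz, rfl⟩,
    hinj, ?_, ?_, hal', ?_, ?_⟩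
  · refine Polynomial.natDegree_map_le.trans ?_
    rw [← Polynomial.natDegree_map_eq_of_injective hα p0, hp0]
    exact hp
  · rw [Polynomial.natDegree_map_of_leadingCoeff_ne_zero]
    · rw [← Polynomial.natDegree_map_eq_of_injective hα q0, hq0]
      exact hq
    · have h1 : α q0.leadingCoeff = q.leadingCoeff := by
        rw [← hq0, Polynomial.leadingCoeff_map_of_injective hα]
      have h0 : q ≠ 0 := by
        rintro rfl
        rw [Polynomial.natDegree_zero] at hq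
        omega
      refine unit_ne α β hα (by rw [h1]; exact Polynomial.leadingCoeff_ne_zero.2 h0) ?_
      rw [h1]
      exact h _ (Or.inl (Or.inl (Or.inr rfl)))
  · refine ⟨u0.map β, v0.map β, ?_⟩
    have h1 : u0 * p0 + v0 * q0 = 1 := by
      apply Polynomial.map_injective α hα
      rw [Polynomial.map_add, Polynomial.map_mul, Polynomial.map_mul, hu0, hp0, hv0, hq0,
        Polynomial.map_one, hc]
    rw [← Polynomial.map_mul, ← Polynomial.map_mul, ← Polynomial.map_add, h1, Polynomial.map_one]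
  · intro z' hz'
    obtain ⟨z, hz, rfl⟩ := Finset.mem_image.1 hz'
    rw [hev, hev, hstep z hz]
    exact ⟨(hqz z hz).1, Finset.mem_image.2 ⟨_, (hS z hz).2, rfl⟩⟩
  · rintro _ ⟨_, k0, _, k1, _, k2, _, kx, n01, n02, n12, nx2, nx0, rfl⟩
    obtain ⟨x0, h0, rfl⟩ := Finset.mem_image.1 k0
    obtain ⟨x1, h1, rfl⟩ := Finset.mem_image.1 k1
    obtain ⟨x2, h2, rfl⟩ := Finset.mem_image.1 k2
    obtain ⟨x, hx, rfl⟩ := Finset.mem_image.1 kx
    have m01 : x0 ≠ x1 := fun e => n01 (by rw [e])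
    have m02 : x0 ≠ x2 := fun e => n02 (by rw [e])
    have m12 : x1 ≠ x2 := fun e => n12 (by rw [e])
    have mx2 : x ≠ x2 := fun e => nx2 (by rw [e])
    have mx0 : x ≠ x0 := fun e => nx0 (by rw [e])
    obtain ⟨i1, hi1⟩ := h _ (Or.inr ⟨(x, x2), ⟨hx, h2⟩, rfl⟩)
    obtain ⟨i2, hi2⟩ := h _ (Or.inr ⟨(x1, x0), ⟨h1, h0⟩, rfl⟩)
    change α i1 = (x - x2)⁻¹ at hi1
    change α i2 = (x1 - x0)⁻¹ at hi2
    have e1 := be_inv β hα (sub_ne_zero.2 mx2) (b := s x - s x2)
      (by rw [map_sub, hs x hx, hs x2 h2]) hi1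
    have e2 := be_inv β hα (sub_ne_zero.2 m01.symm) (b := s x1 - s x0)
      (by rw [map_sub, hs x1 h1, hs x0 h0]) hi2
    refine ⟨(s x - s x0) * (s x1 - s x2) * (i1 * i2), ?_, ?_⟩
    · refine ⟨x0, h0, x1, h1, x2, h2, x, hx, m01, m02, m12, mx2, mx0, ?_⟩
      rw [map_mul, map_mul, map_mul, map_sub, map_sub, hs x hx, hs x0 h0, hs x1 h1, hs x2 h2,
        hi1, hi2]
      field_simp
    · rw [map_mul, map_mul, map_mul, e1.2, e2.2]
      simp only [map_sub]
      field_simp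
  · intro w hw
    obtain ⟨z, hz, rfl⟩ := Finset.mem_image.1 hw
    rw [hev, hev, hstep z hz, hal2 z hz, hal2 _ (hS z hz).2, ← map_pow, ← map_pow, ← map_mul]
    congr 1
    apply hα
    rw [map_pow, map_mul, map_pow, ha z hz, (hqz z hz).2, ha _ (hS z hz).2, hrel z hz]
  · intro z hz z' hz'
    refine ⟨(s z - s z') ^ (E₀ * (d * (d - 1))) * resultant q0 p0 d d ^ E₀ *
      (c z * c z') ^ (d * (d - 1)), ?_, ?_⟩
    · unfold gfn
      rw [map_mul, map_mul, map_pow, map_pow, map_pow, map_mul, map_sub, hs z hz, hs z' hz',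
        hcc z hz, hcc z' hz', ← Polynomial.resultant_map_map, hq0, hp0, ← mul_inv, inv_pow,
        div_eq_mul_inv]
    · unfold gfn
      have e1 := be_inv β hα (hal z) (ha z hz) (hcc z hz)
      have e2 := be_inv β hα (hal z') (ha z' hz') (hcc z' hz')
      rw [map_mul, map_mul, map_pow, map_pow, map_pow, map_mul, map_sub, e1.2, e2.2,
        ← Polynomial.resultant_map_map, ← mul_inv, inv_pow, hal2 z hz, hal2 z' hz',
        div_eq_mul_inv]

theorem spf : Pool.Agent.Q103.KO.S_spf := by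
  classical
  intro k K _ _ _ d E₀ p q hd hE hp hq hc P hS α hα hrel
  obtain ⟨u, v, huv⟩ := hc
  refine ⟨Dat p q u v P ∪ (α '' (P : Set K) ∪ (fun z => (α z)⁻¹) '' (P : Set K)),
    (dat_finite p q u v P).union (((Finset.finite_toSet _).image _).union
      ((Finset.finite_toSet _).image _)), ?_⟩
  intro E _ _ S hΘ
  obtain ⟨p', q', s, al', g1, g2, g3, g4, g5, g6, g7, g8, g9, g10⟩ := spf_ring (al S) (be S)
    (al_inj S) (E₀ := E₀) hd hp hq huv hS α hα hrel (fun a ha => mem_al S (hΘ a (Or.inl ha)))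
    (fun z hz => mem_al S (hΘ _ (Or.inr (Or.inl ⟨z, hz, rfl⟩))))
    (fun z hz => mem_al S (hΘ _ (Or.inr (Or.inr ⟨z, hz, rfl⟩))))
  have hT : ∀ z ∈ P, S.T z (s z) := by
    intro z hz
    obtain ⟨b, hb1, hb2⟩ := g4 z hz
    rw [← hb2]
    nth_rewrite 1 [← hb1]
    exact al_be S b
  have hgfn : ∀ z ∈ P, ∀ z' ∈ P, S.T (gfn E₀ d α p q z z') (gfn E₀ d al' p' q' (s z) (s z')) := by
    intro z hz z' hz'
    obtain ⟨b, hb1, hb2⟩ := g10 z hz z' hz'
    rw [← hb1, ← hb2]
    exact al_be S b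
  refine ⟨p', q', s, al', g1, g2, g3, hT, g5, ?_, ?_, g8, ?_, ?_, ?_⟩
  · convert g6
  · intro c hc
    obtain ⟨b, hb1, hb2⟩ := g7 c (by convert hc)
    exact ⟨_, hb1, by rw [← hb2]; exact al_be S b⟩
  · intro z hz
    exact g9 z (by convert hz)
  · unfold GG
    rw [Finset.prod_image g5]
    refine S.prod _ fun z hz => ?_
    have h1 : (P.image s).erase (s z) = (P.erase z).image s := by
      ext w
      simp only [Finset.mem_erase, Finset.mem_image]
      constructor
      · rintro ⟨e1, z', hz', rfl⟩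
        exact ⟨z', ⟨fun e => e1 (by rw [e]), hz'⟩, rfl⟩
      · rintro ⟨z', ⟨e1, hz'⟩, rfl⟩
        exact ⟨fun e => e1 (g5 hz' hz e), z', hz', rfl⟩
    rw [h1, Finset.prod_image (g5.mono (by
      intro y hy
      exact Finset.mem_coe.2 (Finset.mem_of_mem_erase (Finset.mem_coe.1 hy))))]
    exact S.prod _ fun z' hz' => hgfn z hz z' (Finset.mem_of_mem_erase hz')
  · intro J _ x hx hxP
    constructor
    · unfold pprod
      exact S.prod _ fun l _ => S.prod _ fun j _ => hgfn _ (hxP l) _ (hxP j)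
    · unfold pprod
      exact S.prod _ fun l _ => S.prod _ fun j _ => S.sub (hT _ (hxP l)) (hT _ (hxP j))

end Pool.Agent.Q209.KO
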